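import Pool.Agent.R962.FN.Final

/-!
# Oriented percolation flow near `p = 1`

`V n ω` is the largest number of pairwise edge-disjoint open oriented paths from `S` to `T` in the
square `{0, …, n-1}²`, for the configuration `ω` of open and closed edges; under `law p` the edges
are independent and open with probability `p`. We prove that `V n / (2 n)` converges in mean to a
constant `v p` and that `(1 - v p) / √(2 (1 - p))` tends to `1` as `p` increases to `1`.
-/

set_option autoImplicit false

namespace Pool.Agent.Results.MP_465a95_pr.FlowNearOne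

open MeasureTheory ProbabilityTheory Filter Topology
open Pool.Agent.R962.FN

/-- **Asymptotics of the flow constant near `p = 1`.** -/
theorem result :
    (∀ n : ℕ, 2 ≤ n → Measurable (V n) ∧
      ∀ ω : Conf, IsGreatest {k : ℕ | HasFlow n ω k} (V n ω)) ∧
    ∃ v : ℝ → ℝ,
      (∀ p : unitInterval, Tendsto
        (fun n : ℕ => ∫ ω, |(V n ω : ℝ) / (2 * (n : ℝ)) - v p| ∂(law p)) atTop (𝓝 0)) ∧
      Tendsto (fun p : ℝ => (1 - v p) / Real.sqrt (2 * (1 - p))) (𝓝[<] 1) (𝓝 1) := by
  classical
  refine ⟨fun n hn => ⟨V_meas n, fun ω => V_greatest hn ω⟩, ?_⟩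
  let v : ℝ → ℝ := fun x => if h : x ∈ unitInterval then 1 - kap ⟨x, h⟩ / 2 else 0
  have hv : ∀ p : unitInterval, v p = 1 - kap p / 2 := fun p => dif_pos p.2
  have h1 : ∀ p : unitInterval, Tendsto
      (fun n : ℕ => ∫ ω, |(V n ω : ℝ) / (2 * (n : ℝ)) - v p| ∂(law p)) atTop (𝓝 0) := by
    intro p
    rw [hv p]
    exact V_L1 p
  exact ⟨v, h1, v_asymp v (fun p _ _ => h1 p)⟩

end Pool.Agent.Results.MP_465a95_pr.FlowNearOne
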